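import Pool.Agent.helper675_ocg.Main

/-!
Choice of parameters for large `n`.
-/

namespace Pool.Agent.helper675_ocg

open Finset

lemma norm_ineq {α l ξ e δ : ℝ} (he : δ = 10 * e) (hδ : 0 < δ) (hδ' : δ ≤ 1 / 20)
    (hξ : ξ ≤ 2 - √2 - δ) (hξ2 : 1 / 2 ≤ ξ) (hα : 1 - ξ - 2 * e ≤ α)
    (hl : 0 ≤ l) (h2 : 2 * α + l ≤ 1 + 2 * e) :
    3 * e < -α ^ 2 + 2 * α * (1 - ξ) + l ^ 2 - 2 * l * ξ := by
  have hr2 : √2 ^ 2 = 2 := Real.sq_sqrt (by norm_num)
  have hr : 1.4 < √2 := by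
    rw [show (1.4 : ℝ) = √(1.4 ^ 2) by rw [Real.sqrt_sq (by norm_num)]]
    exact Real.sqrt_lt_sqrt (by norm_num) (by norm_num)
  have he0 : 0 < e := by linarith
  have he1 : e ≤ 1 / 200 := by linarith
  -- write `u = 1 - ξ`
  obtain ⟨u, rfl⟩ : ∃ u, ξ = 1 - u := ⟨1 - ξ, by ring⟩
  have hu1 : √2 - 1 + δ ≤ u := by linarith
  have hu2 : u ≤ 1 / 2 := by linarith
  have hu3 : 0.4 ≤ u := by linarith
  have hα' : u - 2 * e ≤ α := by linarith
  have hαup : α ≤ (1 + 2 * e) / 2 := by linarith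
  -- replace `l` by its largest value `L`
  have hL : l ≤ 1 + 2 * e - 2 * α := by linarith
  have hLξ : 1 + 2 * e - 2 * α ≤ 1 - u := by linarith
  have h3 : (1 + 2 * e - 2 * α) ^ 2 - 2 * (1 + 2 * e - 2 * α) * (1 - u) ≤
      l ^ 2 - 2 * l * (1 - u) := by
    nlinarith [mul_nonneg (sub_nonneg.mpr hL)
      (show 0 ≤ 2 * (1 - u) - (1 + 2 * e - 2 * α) - l by linarith)]
  have h4 : (√2 + δ) ^ 2 ≤ (u + 1) ^ 2 := by
    apply pow_le_pow_left₀ (by linarith)
    linarith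
  have h5 : 2 + 28 * e ≤ (u + 1) ^ 2 := by
    nlinarith
  -- the quadratic in `α`
  have h6 : u ^ 2 - 8 * e * u ≤ 3 * α ^ 2 - 2 * α * u := by
    have : 0 ≤ α - (u - 2 * e) := by linarith
    nlinarith [mul_nonneg this (show 0 ≤ 3 * α + 3 * (u - 2 * e) - 2 * u by linarith)]
  have h7 : -(4 * e) ≤ 4 * e * (u - 2 * α) := by
    nlinarith
  nlinarith

lemma fin_ineq {n X s h w0 θ : ℕ} {e δ : ℝ} (he : δ = 10 * e) (hδ : 0 < δ) (hδ' : δ ≤ 1 / 20)
    (hn : 2 ≤ e * n) (hX1 : (X : ℝ) ≤ (2 - √2 - δ) * n) (hX2 : (n : ℝ) / 2 ≤ X)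
    (hw : (w0 : ℝ) ≤ 2 * e * n) (hM : (s : ℝ) + θ + 1 ≤ 2 * e * n)
    (hs0 : 0 < s) (hs : 2 * (h : ℝ) * n ≤ s * (e * n)) :
    ∀ a l k : ℕ, n ≤ a + (X + s + θ + 1) → 2 * a + l ≤ n + w0 →
      s * k ≤ s * l + 2 * h * n →
      (2 * k * X : ℤ) < a * (a - 1) + 2 * a * (n - a - X) + l * (l - 1) := by
  intro a l k h1 h2 h3
  have he0 : 0 < e := by linarith
  have hnpos : (0 : ℝ) < n := by
    rcases Nat.eq_zero_or_pos n with h0 | h0
    · subst h0; simp at hn; linarith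
    · exact_mod_cast h0
  have hs0' : (0 : ℝ) < s := by exact_mod_cast hs0
  have h1' : (n : ℝ) ≤ a + (X + s + θ + 1) := by exact_mod_cast h1
  have h2' : 2 * (a : ℝ) + l ≤ n + w0 := by exact_mod_cast h2
  have h3' : (s : ℝ) * k ≤ s * l + 2 * h * n := by exact_mod_cast h3
  have hk : (k : ℝ) ≤ l + e * n := by
    have : (s : ℝ) * k ≤ s * (l + e * n) := by nlinarith
    exact le_of_mul_le_mul_left this hs0'
  have hr : 1.4 < √2 := by
    rw [show (1.4 : ℝ) = √(1.4 ^ 2) by rw [Real.sqrt_sq (by norm_num)]]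
    exact Real.sqrt_lt_sqrt (by norm_num) (by norm_num)
  have hXn : (X : ℝ) ≤ n := by nlinarith
  have hXpos : (0 : ℝ) ≤ X := Nat.cast_nonneg _
  have hlpos : (0 : ℝ) ≤ l := Nat.cast_nonneg _
  have key := norm_ineq (α := a / n) (l := l / n) (ξ := X / n) he hδ hδ'
    (by rw [div_le_iff₀ hnpos]; exact hX1)
    (by rw [le_div_iff₀ hnpos]; linarith)
    (by
      rw [le_div_iff₀ hnpos]
      have : (1 - (X : ℝ) / n - 2 * e) * n = n - X - 2 * e * n := by field_simp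
      rw [this]; linarith)
    (by positivity)
    (by
      have : 2 * ((a : ℝ) / n) + l / n = (2 * a + l) / n := by ring
      rw [this, div_le_iff₀ hnpos]; linarith)
  have key2 : 3 * e * n ^ 2 < -(a : ℝ) ^ 2 + 2 * a * (n - X) + l ^ 2 - 2 * l * X := by
    have h4 := mul_lt_mul_of_pos_right key (pow_pos hnpos 2)
    have h5 : (-((a : ℝ) / n) ^ 2 + 2 * (a / n) * (1 - X / n) + (l / n) ^ 2 -
        2 * (l / n) * (X / n)) * n ^ 2 =
        -(a : ℝ) ^ 2 + 2 * a * (n - X) + l ^ 2 - 2 * l * X := by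
      field_simp
    rw [h5] at h4
    exact h4
  have h6 : 2 * (k : ℝ) * X ≤ 2 * l * X + 2 * (e * n ^ 2) := by
    have : (k : ℝ) * X ≤ (l + e * n) * X := mul_le_mul_of_nonneg_right hk hXpos
    have h7 : e * n * X ≤ e * n * n := mul_le_mul_of_nonneg_left hXn (by positivity)
    nlinarith
  have h8 : (a : ℝ) + l ≤ e * n ^ 2 := by
    have hw' : (w0 : ℝ) ≤ n := by nlinarith
    have ha : (0 : ℝ) ≤ a := Nat.cast_nonneg _
    have : (a : ℝ) + l ≤ 2 * n := by linarith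
    nlinarith
  have h9 : (2 * k * X : ℝ) < a * (a - 1) + 2 * a * (n - a - X) + l * (l - 1) := by
    linarith
  exact_mod_cast h9

set_option maxHeartbeats 2000000 in
theorem core_asymp_small {δ : ℝ} (hδ : 0 < δ) (hδ' : δ ≤ 1 / 20) :
    ∃ N : ℕ, ∀ n : ℕ, N ≤ n → ∀ (V : Type) [Fintype V] [DecidableEq V], Fintype.card V = n →
      ∀ S : Set (Finset (V × V)), Safe ⌊(2 - √2 - δ) * n⌋₊ S → (∅ : Finset (V × V)) ∉ S := by
  obtain ⟨e, he⟩ : ∃ e : ℝ, δ = 10 * e := ⟨δ / 10, by ring⟩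
  have he0 : 0 < e := by linarith
  have he1 : e ≤ 1 / 200 := by linarith
  have hr : 1.4 < √2 := by
    rw [show (1.4 : ℝ) = √(1.4 ^ 2) by rw [Real.sqrt_sq (by norm_num)]]
    exact Real.sqrt_lt_sqrt (by norm_num) (by norm_num)
  have hr' : √2 < 1.42 := by
    rw [show (1.42 : ℝ) = √(1.42 ^ 2) by rw [Real.sqrt_sq (by norm_num)]]
    exact Real.sqrt_lt_sqrt (by norm_num) (by norm_num)
  refine ⟨⌈(100 / e ^ 4) ^ 2⌉₊, ?_⟩
  intro n hn V _ _ hV S hS
  have hnR : (100 / e ^ 4) ^ 2 ≤ (n : ℝ) := (Nat.le_ceil _).trans (by exact_mod_cast hn)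
  set ρ := √(n : ℝ) with hρ
  have hρ2 : ρ ^ 2 = n := Real.sq_sqrt (Nat.cast_nonneg n)
  have hρ0 : 0 ≤ ρ := Real.sqrt_nonneg _
  have hρK : 100 / e ^ 4 ≤ ρ := by
    rw [hρ]
    exact Real.le_sqrt_of_sq_le hnR
  have hρ4 : 100 ≤ e ^ 4 * ρ := by
    rw [div_le_iff₀ (by positivity)] at hρK
    linarith
  have hρ3 : 100 ≤ e ^ 3 * ρ := by
    refine hρ4.trans ?_
    have : e ^ 4 ≤ e ^ 3 := pow_le_pow_of_le_one he0.le (by linarith) (by norm_num)
    exact mul_le_mul_of_nonneg_right this hρ0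
  have hρ2' : 100 ≤ e ^ 2 * ρ := by
    refine hρ3.trans ?_
    have : e ^ 3 ≤ e ^ 2 := pow_le_pow_of_le_one he0.le (by linarith) (by norm_num)
    exact mul_le_mul_of_nonneg_right this hρ0
  have hρ1 : 100 ≤ e * ρ := by
    refine hρ2'.trans ?_
    have : e ^ 2 ≤ e := by nlinarith
    exact mul_le_mul_of_nonneg_right this hρ0
  have hρb : 100 ≤ ρ := by nlinarith
  have hρpos : 0 < ρ := by linarith
  have hn1 : 100 ≤ e * n := by rw [← hρ2]; nlinarith
  have hn2 : 100 ≤ e ^ 2 * n := by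
    rw [← hρ2]
    nlinarith [mul_le_mul hρ1 hρ1 (by norm_num) (by positivity)]
  have hnpos : (0 : ℝ) < n := by rw [← hρ2]; positivity
  have hnbig : (10000 : ℝ) ≤ n := by rw [← hρ2]; nlinarith
  -- the parameters
  set X := ⌊(2 - √2 - δ) * n⌋₊ with hX
  set w := ⌈e * n⌉₊ with hw
  set s := ⌊e ^ 2 * n / 2⌋₊ with hs
  set r := Nat.sqrt n + 1 with hrdef
  have hXle : (X : ℝ) ≤ (2 - √2 - δ) * n := Nat.floor_le (by
    apply mul_nonneg _ hnpos.le
    linarith)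
  have hXlt : (2 - √2 - δ) * n < X + 1 := Nat.lt_floor_add_one _
  have hX2 : (n : ℝ) * 0.52 ≤ X := by nlinarith
  have hXn : (X : ℝ) ≤ n := by nlinarith
  have hwge : e * n ≤ (w : ℝ) := Nat.le_ceil _
  have hwlt : (w : ℝ) < e * n + 1 := Nat.ceil_lt_add_one (by positivity)
  have hsle : (s : ℝ) ≤ e ^ 2 * n / 2 := Nat.floor_le (by positivity)
  have hslt : e ^ 2 * n / 2 < s + 1 := Nat.lt_floor_add_one _
  have hsge : e ^ 2 * n / 4 ≤ (s : ℝ) := by linarith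
  have hrρ : (r : ℝ) ≤ ρ + 1 := by
    rw [hrdef]
    push_cast
    have : (Nat.sqrt n : ℝ) ≤ ρ := by
      rw [hρ]
      exact Real.nat_sqrt_le_real_sqrt
    linarith
  have hrn : n < r * r := Nat.lt_succ_sqrt n
  have hr2 : (r : ℝ) ≤ 2 * ρ := by linarith
  have hspos : 0 < s := by
    rw [← Nat.cast_pos (α := ℝ)]
    linarith
  have hnN : 0 < n := by exact_mod_cast hnpos
  have hXnN : X ≤ n := by exact_mod_cast hXn
  refine core_param hS (n := n) (s := s) (h := 2 * r) (w0 := w) (θ := w) hV hnN ?_ ?_ ?_ ?_ ?_ ?_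
  · omega
  · nlinarith
  · -- `h X < s ^ 2`
    rw [← Nat.cast_lt (α := ℝ)]
    push_cast
    have h1 : 2 * (r : ℝ) * X ≤ 2 * (2 * ρ) * n :=
      mul_le_mul (by linarith) hXn (Nat.cast_nonneg _) (by positivity)
    have h2 : (e ^ 2 * n / 4) * (e ^ 2 * n / 4) ≤ (s : ℝ) * s :=
      mul_le_mul hsge hsge (by positivity) (Nat.cast_nonneg _)
    have h3 : 2 * (2 * ρ) * n < (e ^ 2 * n / 4) * (e ^ 2 * n / 4) := by
      rw [← hρ2]
      have h4 : 64 < e ^ 4 * ρ := by linarith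
      have h5 : (e ^ 2 * ρ ^ 2 / 4) * (e ^ 2 * ρ ^ 2 / 4) = (e ^ 4 * ρ) * ρ ^ 3 / 16 := by ring
      rw [h5]
      have h6 : 64 * ρ ^ 3 < (e ^ 4 * ρ) * ρ ^ 3 := mul_lt_mul_of_pos_right h4 (by positivity)
      nlinarith
    linarith
  · -- `n X + n s θ < w θ ^ 2`
    rw [← Nat.cast_lt (α := ℝ)]
    push_cast
    have h1 : (n : ℝ) * X ≤ n * n := mul_le_mul_of_nonneg_left hXn hnpos.le
    have hwpos : (0 : ℝ) ≤ w := Nat.cast_nonneg _
    have h2 : (n : ℝ) * s * w ≤ n * (e ^ 2 * n / 2) * w := by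
      apply mul_le_mul_of_nonneg_right _ hwpos
      exact mul_le_mul_of_nonneg_left hsle hnpos.le
    have h3 : (e * n) * (e * n) * w ≤ (w : ℝ) * w * w := by
      apply mul_le_mul_of_nonneg_right _ hwpos
      exact mul_le_mul hwge hwge (by positivity) hwpos
    have h4 : (n : ℝ) * n < (e ^ 2 * n ^ 2 / 2) * w := by
      have h5 : 1 < e ^ 2 / 2 * w := by
        have h6 : e ^ 2 / 2 * (e * n) ≤ e ^ 2 / 2 * w :=
          mul_le_mul_of_nonneg_left hwge (by positivity)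
        have h7 : e ^ 2 / 2 * (e * n) = (e ^ 3 * ρ) * ρ / 2 := by rw [← hρ2]; ring
        have h8 : 100 * ρ ≤ (e ^ 3 * ρ) * ρ := mul_le_mul_of_nonneg_right hρ3 hρ0
        linarith
      have h8 : (n : ℝ) * n * 1 < (n : ℝ) * n * (e ^ 2 / 2 * w) :=
        mul_lt_mul_of_pos_left h5 (by positivity)
      linarith
    linarith
  · rw [← Nat.cast_le (α := ℝ)]
    push_cast
    have h1 : e * n ≤ 1 / 200 * n := mul_le_mul_of_nonneg_right he1 hnpos.le
    linarith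
  · refine fin_ineq he hδ hδ' (by linarith) hXle (by linarith) (by linarith) ?_ hspos ?_
    · have : e ^ 2 * n ≤ e * n / 200 := by
        have : e * (e * n) ≤ 1 / 200 * (e * n) := mul_le_mul_of_nonneg_right he1 (by positivity)
        linarith
      linarith
    · push_cast
      have h1 : 2 * (2 * (r : ℝ)) * n ≤ 2 * (2 * (2 * ρ)) * n := by
        apply mul_le_mul_of_nonneg_right _ hnpos.le
        linarith
      have h2 : (e ^ 2 * n / 4) * (e * n) ≤ (s : ℝ) * (e * n) :=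
        mul_le_mul_of_nonneg_right hsge (by positivity)
      have h3 : 2 * (2 * (2 * ρ)) * n ≤ (e ^ 2 * n / 4) * (e * n) := by
        have h4 : (e ^ 2 * n / 4) * (e * n) = (e ^ 3 * ρ) * (ρ * n) / 4 := by
          rw [← hρ2]; ring
        rw [h4]
        have h5 : 100 * (ρ * n) ≤ (e ^ 3 * ρ) * (ρ * n) :=
          mul_le_mul_of_nonneg_right hρ3 (by positivity)
        have h6 : 0 ≤ ρ * n := by positivity
        linarith
      linarith

/-- A safe family for a price at most `(2 - √2 - δ) n` does not contain the empty poset. -/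
theorem core_asymp {δ : ℝ} (hδ : 0 < δ) :
    ∃ N : ℕ, ∀ n : ℕ, N ≤ n → ∀ X : ℕ, (X : ℝ) ≤ (2 - √2 - δ) * n →
      ∀ (V : Type) [Fintype V] [DecidableEq V], Fintype.card V = n →
      ∀ S : Set (Finset (V × V)), Safe X S → (∅ : Finset (V × V)) ∉ S := by
  obtain ⟨N, hN⟩ := core_asymp_small (δ := min δ (1 / 20)) (by positivity) (min_le_right _ _)
  refine ⟨N, fun n hn X hX V _ _ hV S hS => ?_⟩
  refine hN n hn V hV S (hS.mono ?_)
  apply Nat.le_floor
  refine hX.trans ?_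
  apply mul_le_mul_of_nonneg_right _ (Nat.cast_nonneg _)
  have := min_le_left δ (1 / 20)
  linarith

end Pool.Agent.helper675_ocg
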