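import Mathlib

/-!
Posets as finite sets of arcs, and families of posets closed under cheap extension.
-/

namespace Pool.Agent.helper675_ocg

open Finset

variable {V : Type*} [Fintype V] [DecidableEq V]

/-- Strict up-set of `v`. -/
def up (P : Finset (V × V)) (v : V) : Finset V := univ.filter fun w => (v, w) ∈ P

/-- Strict down-set of `v`. -/
def dn (P : Finset (V × V)) (v : V) : Finset V := univ.filter fun w => (w, v) ∈ P

/-- Closed up-set. -/
def upc (P : Finset (V × V)) (v : V) : Finset V := insert v (up P v)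

/-- Closed down-set. -/
def dnc (P : Finset (V × V)) (v : V) : Finset V := insert v (dn P v)

/-- The reversed arc set. -/
def rev (P : Finset (V × V)) : Finset (V × V) := P.image Prod.swap

@[simp] lemma mem_up {P : Finset (V × V)} {v w : V} : w ∈ up P v ↔ (v, w) ∈ P := by
  simp [up]

@[simp] lemma mem_dn {P : Finset (V × V)} {v w : V} : w ∈ dn P v ↔ (w, v) ∈ P := by
  simp [dn]

@[simp] lemma mem_upc {P : Finset (V × V)} {v w : V} : w ∈ upc P v ↔ w = v ∨ (v, w) ∈ P := by
  simp [upc]

@[simp] lemma mem_dnc {P : Finset (V × V)} {v w : V} : w ∈ dnc P v ↔ w = v ∨ (w, v) ∈ P := by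
  simp [dnc]

@[simp] lemma mem_rev {P : Finset (V × V)} {v w : V} : (v, w) ∈ rev P ↔ (w, v) ∈ P := by
  unfold rev
  simp only [Finset.mem_image, Prod.exists, Prod.swap_prod_mk, Prod.mk.injEq]
  constructor
  · rintro ⟨a, b, hab, rfl, rfl⟩
    exact hab
  · intro h
    exact ⟨w, v, h, rfl, rfl⟩

lemma up_rev (P : Finset (V × V)) (v : V) : up (rev P) v = dn P v := by
  ext w; simp

lemma dn_rev (P : Finset (V × V)) (v : V) : dn (rev P) v = up P v := by
  ext w; simp

lemma upc_rev (P : Finset (V × V)) (v : V) : upc (rev P) v = dnc P v := by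
  ext w; simp

lemma dnc_rev (P : Finset (V × V)) (v : V) : dnc (rev P) v = upc P v := by
  ext w; simp

lemma rev_rev (P : Finset (V × V)) : rev (rev P) = P := by
  ext ⟨a, b⟩; simp

lemma card_rev (P : Finset (V × V)) : (rev P).card = P.card :=
  Finset.card_image_of_injective _ Prod.swap_injective

/-- A family of transitive orientations in which every free edge can be directed either way
at a total price of at most `X` new arcs while staying inside the family. -/
structure Safe (X : ℕ) (S : Set (Finset (V × V))) : Prop where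
  irrefl : ∀ P ∈ S, ∀ x, (x, x) ∉ P
  trans : ∀ P ∈ S, ∀ x y z, (x, y) ∈ P → (y, z) ∈ P → (x, z) ∈ P
  step : ∀ P ∈ S, ∀ x y, x ≠ y → (x, y) ∉ P → (y, x) ∉ P →
    ∃ P' ∈ S, P ⊆ P' ∧ (x, y) ∈ P' ∧ P'.card ≤ P.card + X

/-- The reversed family. -/
def opp (S : Set (Finset (V × V))) : Set (Finset (V × V)) := {P | rev P ∈ S}

lemma Safe.opp {X : ℕ} {S : Set (Finset (V × V))} (hS : Safe X S) : Safe X (opp S) where
  irrefl := by
    intro P hP x hx
    exact hS.irrefl (rev P) hP x (by simpa using hx)
  trans := by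
    intro P hP x y z hxy hyz
    have := hS.trans (rev P) hP z y x (by simpa using hyz) (by simpa using hxy)
    simpa using this
  step := by
    intro P hP x y hxy h1 h2
    obtain ⟨P', hP', hsub, hmem, hcard⟩ := hS.step (rev P) hP y x (Ne.symm hxy)
      (by simpa using h1) (by simpa using h2)
    refine ⟨rev P', ?_, ?_, ?_, ?_⟩
    · show rev (rev P') ∈ S
      rw [rev_rev]; exact hP'
    · rintro ⟨a, b⟩ hab
      have : (b, a) ∈ rev P := by simpa using hab
      simpa using hsub this
    · simpa using hmem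
    · rw [card_rev]; rw [card_rev] at hcard; exact hcard

lemma Safe.asymm {X : ℕ} {S : Set (Finset (V × V))} (hS : Safe X S) {P : Finset (V × V)}
    (hP : P ∈ S) {x y : V} (h1 : (x, y) ∈ P) (h2 : (y, x) ∈ P) : False :=
  hS.irrefl P hP x (hS.trans P hP x y x h1 h2)

lemma Safe.mono {X Y : ℕ} (hXY : X ≤ Y) {S : Set (Finset (V × V))} (hS : Safe X S) :
    Safe Y S where
  irrefl := hS.irrefl
  trans := hS.trans
  step := by
    intro P hP x y hxy h1 h2
    obtain ⟨P', hP', hsub, hmem, hcard⟩ := hS.step P hP x y hxy h1 h2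
    exact ⟨P', hP', hsub, hmem, hcard.trans (by omega)⟩

/-! ### Counting arcs by their starting point -/

lemma card_eq_sum_up (P : Finset (V × V)) : P.card = ∑ v, (up P v).card := by
  classical
  rw [Finset.card_eq_sum_card_fiberwise (f := Prod.fst) (t := univ) (by simp)]
  refine Finset.sum_congr rfl fun v _ => ?_
  refine (Finset.card_bij (fun w _ => (v, w)) ?_ ?_ ?_).symm
  · intro w hw; simpa using hw
  · intro a _ b _ hab; simpa using hab
  · rintro ⟨a, b⟩ hab
    simp only [Finset.mem_filter] at hab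
    obtain ⟨h1, rfl⟩ := hab
    exact ⟨b, by simpa using h1, rfl⟩

lemma card_eq_sum_dn (P : Finset (V × V)) : P.card = ∑ v, (dn P v).card := by
  rw [← card_rev P, card_eq_sum_up (rev P)]
  exact Finset.sum_congr rfl fun v _ => by rw [up_rev]

lemma up_sdiff (P P' : Finset (V × V)) (v : V) : up (P' \ P) v = up P' v \ up P v := by
  ext w; simp

lemma dn_sdiff (P P' : Finset (V × V)) (v : V) : dn (P' \ P) v = dn P' v \ dn P v := by
  ext w; simp

/-- The new arcs leaving a set of vertices number at most `X`. -/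
lemma sum_new_le {X : ℕ} {P P' : Finset (V × V)} (hsub : P ⊆ P') (hcard : P'.card ≤ P.card + X)
    (A : Finset V) : ∑ v ∈ A, (up P' v \ up P v).card ≤ X := by
  have h1 : (P' \ P).card ≤ X := by
    rw [Finset.card_sdiff_of_subset hsub]; omega
  calc ∑ v ∈ A, (up P' v \ up P v).card ≤ ∑ v, (up P' v \ up P v).card :=
        Finset.sum_le_sum_of_subset (Finset.subset_univ A)
    _ = (P' \ P).card := by
        rw [card_eq_sum_up (P' \ P)]
        exact Finset.sum_congr rfl fun v _ => by rw [up_sdiff]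
    _ ≤ X := h1

lemma sum_new_dn_le {X : ℕ} {P P' : Finset (V × V)} (hsub : P ⊆ P')
    (hcard : P'.card ≤ P.card + X)
    (A : Finset V) : ∑ v ∈ A, (dn P' v \ dn P v).card ≤ X := by
  have h1 : (P' \ P).card ≤ X := by
    rw [Finset.card_sdiff_of_subset hsub]; omega
  calc ∑ v ∈ A, (dn P' v \ dn P v).card ≤ ∑ v, (dn P' v \ dn P v).card :=
        Finset.sum_le_sum_of_subset (Finset.subset_univ A)
    _ = (P' \ P).card := by
        rw [card_eq_sum_dn (P' \ P)]
        exact Finset.sum_congr rfl fun v _ => by rw [dn_sdiff]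
    _ ≤ X := h1

/-- The price of directing `x → y`, counted at the starting points. -/
lemma Safe.cost {X : ℕ} {S : Set (Finset (V × V))} (hS : Safe X S) {P : Finset (V × V)}
    (hP : P ∈ S) {x y : V} (hxy : x ≠ y) (h1 : (x, y) ∉ P) (h2 : (y, x) ∉ P) :
    ∑ a ∈ dnc P x, (upc P y \ up P a).card ≤ X := by
  obtain ⟨P', hP', hsub, hmem, hcard⟩ := hS.step P hP x y hxy h1 h2
  refine le_trans (Finset.sum_le_sum fun a ha => ?_) (sum_new_le hsub hcard (dnc P x))
  refine Finset.card_le_card fun w hw => ?_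
  simp only [Finset.mem_sdiff, mem_upc, mem_up, mem_dnc] at hw ha ⊢
  refine ⟨?_, hw.2⟩
  have hay : (a, y) ∈ P' := by
    rcases ha with rfl | ha
    · exact hmem
    · exact hS.trans P' hP' a x y (hsub ha) hmem
  rcases hw.1 with rfl | hw1
  · exact hay
  · exact hS.trans P' hP' a y w hay (hsub hw1)

/-- The price of directing `x → y`, counted at the end points. -/
lemma Safe.cost' {X : ℕ} {S : Set (Finset (V × V))} (hS : Safe X S) {P : Finset (V × V)}
    (hP : P ∈ S) {x y : V} (hxy : x ≠ y) (h1 : (x, y) ∉ P) (h2 : (y, x) ∉ P) :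
    ∑ b ∈ upc P y, (dnc P x \ dn P b).card ≤ X := by
  obtain ⟨P', hP', hsub, hmem, hcard⟩ := hS.step P hP x y hxy h1 h2
  refine le_trans (Finset.sum_le_sum fun b hb => ?_) (sum_new_dn_le hsub hcard (upc P y))
  refine Finset.card_le_card fun w hw => ?_
  simp only [Finset.mem_sdiff, mem_upc, mem_dn, mem_dnc] at hw hb ⊢
  refine ⟨?_, hw.2⟩
  have hxb : (x, b) ∈ P' := by
    rcases hb with rfl | hb
    · exact hmem
    · exact hS.trans P' hP' x y b hmem (hsub hb)
  rcases hw.1 with rfl | hw1
  · exact hxb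
  · exact hS.trans P' hP' w x b (hsub hw1) hxb

/-- In a chain every pair contributes exactly one arc. -/
lemma chain_sum {P : Finset (V × V)} (hirr : ∀ x, (x, x) ∉ P)
    (htr : ∀ x y z, (x, y) ∈ P → (y, z) ∈ P → (x, z) ∈ P) (C : Finset V)
    (hC : ∀ a ∈ C, ∀ b ∈ C, a ≠ b → (a, b) ∈ P ∨ (b, a) ∈ P) :
    (2 * ∑ a ∈ C, ((C ∩ up P a).card : ℤ)) = C.card * (C.card - 1) := by
  have h1 : ∑ a ∈ C, ((C ∩ up P a).card : ℤ) = ∑ a ∈ C, ((C ∩ dn P a).card : ℤ) := by
    have e1 : ∀ a, ((C ∩ up P a).card : ℤ) = ∑ b ∈ C, if (a, b) ∈ P then 1 else 0 := by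
      intro a
      rw [Finset.sum_boole]
      congr 1
      congr 1
      ext w; simp
    have e2 : ∀ a, ((C ∩ dn P a).card : ℤ) = ∑ b ∈ C, if (b, a) ∈ P then 1 else 0 := by
      intro a
      rw [Finset.sum_boole]
      congr 1
      congr 1
      ext w; simp
    simp only [e1, e2]
    exact Finset.sum_comm
  have h2 : ∀ a ∈ C, ((C ∩ up P a).card : ℤ) + (C ∩ dn P a).card = C.card - 1 := by
    intro a ha
    have hdisj : Disjoint (C ∩ up P a) (C ∩ dn P a) := by
      rw [Finset.disjoint_left]
      intro w hw hw'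
      simp only [Finset.mem_inter, mem_up, mem_dn] at hw hw'
      exact hirr a (htr a w a hw.2 hw'.2)
    have hun : (C ∩ up P a) ∪ (C ∩ dn P a) = C.erase a := by
      ext w
      simp only [Finset.mem_union, Finset.mem_inter, mem_up, mem_dn, Finset.mem_erase]
      constructor
      · rintro (⟨h, h'⟩ | ⟨h, h'⟩)
        · refine ⟨?_, h⟩
          rintro rfl
          exact hirr _ h'
        · refine ⟨?_, h⟩
          rintro rfl
          exact hirr _ h'
      · rintro ⟨hne, hw⟩
        rcases hC a ha w hw (Ne.symm hne) with h | h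
        · exact Or.inl ⟨hw, h⟩
        · exact Or.inr ⟨hw, h⟩
    have hcard := Finset.card_union_of_disjoint hdisj
    rw [hun, Finset.card_erase_of_mem ha] at hcard
    have hpos : 0 < C.card := Finset.card_pos.mpr ⟨a, ha⟩
    omega
  have h3 : ∑ a ∈ C, (((C ∩ up P a).card : ℤ) + (C ∩ dn P a).card) = C.card * (C.card - 1) := by
    rw [Finset.sum_congr rfl h2]
    rw [Finset.sum_const, nsmul_eq_mul]
  rw [Finset.sum_add_distrib, ← h1] at h3
  linarith

end Pool.Agent.helper675_ocg
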