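import Pool.Agent.helper675_ocg.Strat

/-!
The final count and the main theorem with explicit parameters.
-/

namespace Pool.Agent.helper675_ocg

open Finset

variable {V : Type*} [Fintype V] [DecidableEq V]

lemma final_up {X : ℕ} {S : Set (Finset (V × V))} (hS : Safe X S) {P : Finset (V × V)}
    (hP : P ∈ S) {s h : ℕ} (hh : 1 ≤ h)
    {c x : V} {C : Finset V} (ho : Opt s h P c x C) {n : ℕ} (hn : Fintype.card V = n)
    {w0 M k : ℕ} (hcx : (dnc P x).card ≤ (upc P c).card)
    (hw : (univ \ (upc P c ∪ dnc P x)).card < w0) (hM : (upc P c).card ≤ M)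
    (hk : P.card ≤ k * X) (hQ : s * k ≤ Q s h P c x C) (hnX : n + w0 ≤ 2 * X) :
    ∃ a l : ℕ, n ≤ a + M ∧ 2 * a + l ≤ n + w0 ∧ s * k ≤ s * l + 2 * h * n ∧
      (a : ℤ) * (a - 1) + 2 * a * (n - a - X) + l * (l - 1) ≤ 2 * k * X := by
  have hirr := hS.irrefl P hP
  have htr := hS.trans P hP
  have hcomp : ((univ : Finset V) \ upc P c).card + (upc P c).card = n := by
    rw [Finset.card_sdiff_add_card_eq_card (Finset.subset_univ _), Finset.card_univ, hn]
  have hcomp2 : ((univ : Finset V) \ (upc P c ∪ dnc P x)).card + (upc P c ∪ dnc P x).card = n := by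
    rw [Finset.card_sdiff_add_card_eq_card (Finset.subset_univ _), Finset.card_univ, hn]
  have hCsub : C ⊆ upc P c ∩ dnc P x := by
    intro a ha
    rw [Finset.mem_inter, mem_upc, mem_dnc]
    exact ⟨ho.valid.low a ha, ho.valid.high a ha⟩
  have hCcard : C.card ≤ (upc P c ∩ dnc P x).card := Finset.card_le_card hCsub
  have hie : (upc P c ∪ dnc P x).card + (upc P c ∩ dnc P x).card =
      (upc P c).card + (dnc P x).card := Finset.card_union_add_card_inter _ _
  have hdn : (dnc P x).card ≤ n := by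
    rw [← hn, ← Finset.card_univ]; exact Finset.card_le_card (Finset.subset_univ _)
  have hup : (upc P c).card ≤ n := by
    rw [← hn, ← Finset.card_univ]; exact Finset.card_le_card (Finset.subset_univ _)
  refine ⟨((univ : Finset V) \ upc P c).card, C.card, ?_, ?_, ?_, ?_⟩
  · omega
  · omega
  · unfold Q at hQ
    nlinarith
  · set Z := (univ : Finset V) \ upc P c with hZ
    have memZ : ∀ v, v ∈ Z ↔ v ∉ upc P c := by
      intro v
      rw [hZ, Finset.mem_sdiff]
      simp
    have hphi := lemPhi hS Z.card P hP c Z rfl (by omega) (by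
      intro z hz
      rw [memZ, mem_upc, not_or] at hz
      exact ⟨hz.1, ho.min hS hP hh z, hz.2⟩)
    -- split the up-sets of `z ∈ Z`
    have h1 : ∀ z ∈ Z, ((upc P c).card : ℤ) + (Z ∩ up P z).card =
        (upc P c \ up P z).card + (up P z).card := by
      intro z _
      have e1 : (upc P c \ up P z).card + (upc P c ∩ up P z).card = (upc P c).card :=
        Finset.card_sdiff_add_card_inter _ _
      have e2 : (up P z \ upc P c).card + (up P z ∩ upc P c).card = (up P z).card :=
        Finset.card_sdiff_add_card_inter _ _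
      have e3 : up P z \ upc P c = Z ∩ up P z := by
        ext w
        rw [Finset.mem_sdiff, Finset.mem_inter, memZ]
        tauto
      rw [e3, Finset.inter_comm (up P z)] at e2
      omega
    have h2 := Finset.sum_congr rfl h1
    rw [Finset.sum_add_distrib, Finset.sum_add_distrib, Finset.sum_const, nsmul_eq_mul] at h2
    -- the arcs inside the chain
    have hch := chain_sum hirr htr C ho.valid.chain
    have h3 : ∑ v ∈ C, (C ∩ up P v).card ≤ ∑ v ∈ upc P c, (up P v).card := by
      refine le_trans (Finset.sum_le_sum fun v _ => Finset.card_le_card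
        (Finset.inter_subset_right)) (Finset.sum_le_sum_of_subset ?_)
      exact hCsub.trans Finset.inter_subset_left
    have h4 : P.card = ∑ v ∈ Z, (up P v).card + ∑ v ∈ upc P c, (up P v).card := by
      rw [card_eq_sum_up P, hZ, Finset.sum_sdiff (Finset.subset_univ _)]
    have h5 : ((upc P c).card : ℤ) = n - Z.card := by omega
    rw [h5] at h2
    zify at h3 h4 hk
    nlinarith

/-- One round of the induction, in the case where the bottom has the larger reach. -/
lemma progress {X : ℕ} {S : Set (Finset (V × V))} (hS : Safe X S) {P : Finset (V × V)}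
    (hP : P ∈ S) {n s h w0 θ k : ℕ} (hn : Fintype.card V = n) (hh : 1 ≤ h)
    (hh2 : 2 * X < (h + 1) * (h + 2)) (hs : h * X < s * s)
    (hθ : n * X + n * s * θ < w0 * θ * θ) (hnX : n + w0 ≤ 2 * X)
    (hfin : ∀ a l k : ℕ, n ≤ a + (X + s + θ + 1) → 2 * a + l ≤ n + w0 →
      s * k ≤ s * l + 2 * h * n →
      (2 * k * X : ℤ) < a * (a - 1) + 2 * a * (n - a - X) + l * (l - 1))
    {c x : V} {C : Finset V} (ho : Opt s h P c x C)
    (hcx : (dnc P x).card ≤ (upc P c).card)
    (hM : ∀ v, (upc P v).card ≤ X + s + θ + 1)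
    (hk : P.card ≤ k * X) (hQ : s * k ≤ Q s h P c x C) :
    ∃ P' ∈ S, P'.card ≤ (k + 1) * X ∧
      (∃ c' x' C', Valid P' c' x' C' ∧ s * (k + 1) ≤ Q s h P' c' x' C') ∧
      (∀ v, (upc P' v).card ≤ X + s + θ + 1) ∧ (∀ v, (dnc P' v).card ≤ X + s + θ + 1) := by
  rcases lt_or_ge (univ \ (upc P c ∪ dnc P x)).card w0 with hw | hw
  · exfalso
    obtain ⟨a, l, h1, h2, h3, h4⟩ := final_up hS hP hh ho hn hcx hw (hM c) hk hQ hnX
    exact absurd h4 (not_le.mpr (hfin a l k h1 h2 h3))
  · obtain ⟨z, hz1, _, hz3⟩ := ho.exists_low hS hP hh hh2 hs hn hw hθ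
    obtain ⟨P', hP', hc, ⟨c', x', C', hv, hq⟩, hb1, hb2⟩ :=
      step_up hS hP hh hh2 hs ho hcx hz1 hz3
    refine ⟨P', hP', ?_, ⟨c', x', C', hv, ?_⟩, hb1, hb2⟩
    · rw [Nat.add_mul, Nat.one_mul]; omega
    · rw [Nat.mul_add, Nat.mul_one]; omega

theorem core_param {X : ℕ} {S : Set (Finset (V × V))} (hS : Safe X S)
    {n s h w0 θ : ℕ} (hn : Fintype.card V = n) (hn0 : 0 < n) (hh : 1 ≤ h)
    (hh2 : 2 * X < (h + 1) * (h + 2)) (hs : h * X < s * s)
    (hθ : n * X + n * s * θ < w0 * θ * θ) (hnX : n + w0 ≤ 2 * X)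
    (hfin : ∀ a l k : ℕ, n ≤ a + (X + s + θ + 1) → 2 * a + l ≤ n + w0 →
      s * k ≤ s * l + 2 * h * n →
      (2 * k * X : ℤ) < a * (a - 1) + 2 * a * (n - a - X) + l * (l - 1)) :
    (∅ : Finset (V × V)) ∉ S := by
  intro hempty
  have hspos : 0 < s := by
    rcases Nat.eq_zero_or_pos s with h0 | h0
    · subst h0; simp at hs
    · exact h0
  have T : ∀ k : ℕ, ∃ P ∈ S, P.card ≤ k * X ∧
      (∃ c x C, Valid P c x C ∧ s * k ≤ Q s h P c x C) ∧
      (∀ v, (upc P v).card ≤ X + s + θ + 1) ∧ (∀ v, (dnc P v).card ≤ X + s + θ + 1) := by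
    intro k
    induction k with
    | zero =>
      have : Nonempty V := by
        rw [← Fintype.card_pos_iff, hn]; exact hn0
      obtain ⟨c⟩ := this
      refine ⟨∅, hempty, by simp, ⟨c, c, ∅, ?_, by simp⟩, ?_, ?_⟩
      · exact ⟨Or.inl rfl, by simp, by simp, by simp⟩
      · intro v
        have : upc (∅ : Finset (V × V)) v = {v} := by
          ext w; simp
        rw [this, Finset.card_singleton]; omega
      · intro v
        have : dnc (∅ : Finset (V × V)) v = {v} := by
          ext w; simp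
        rw [this, Finset.card_singleton]; omega
    | succ k ih =>
      obtain ⟨P, hP, hk, ⟨c0, x0, C0, hv0, hq0⟩, hb1, hb2⟩ := ih
      obtain ⟨c, x, C, ho⟩ := exists_opt s h P hv0
      have hq : s * k ≤ Q s h P c x C := hq0.trans (ho.max _ _ _ hv0)
      rcases le_total (dnc P x).card (upc P c).card with hcx | hcx
      · exact progress hS hP hn hh hh2 hs hθ hnX hfin ho hcx hb1 hk hq
      · obtain ⟨P', hP', hc, ⟨c', x', C', hv, hq'⟩, hb1', hb2'⟩ :=
          progress hS.opp (mem_opp_rev hP) (k := k) hn hh hh2 hs hθ hnX hfin ho.flip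
            (by rwa [upc_rev, dnc_rev]) (fun v => by rw [upc_rev]; exact hb2 v)
            (by rwa [card_rev]) (by rwa [Q_rev])
        refine ⟨rev P', hP', by rwa [card_rev], ⟨x', c', C', hv.flip, by rwa [Q_rev]⟩, ?_, ?_⟩
        · intro v; rw [upc_rev]; exact hb2' v
        · intro v; rw [dnc_rev]; exact hb1' v
  obtain ⟨P, hP, _, ⟨c, x, C, hv, hq⟩, _, _⟩ := T (n + 2 * h * n + 1)
  have h1 : C.card ≤ n := by
    rw [← hn, ← Finset.card_univ]; exact Finset.card_le_card (Finset.subset_univ _)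
  have h2 : (upc P c).card ≤ n := by
    rw [← hn, ← Finset.card_univ]; exact Finset.card_le_card (Finset.subset_univ _)
  have h3 : (dnc P x).card ≤ n := by
    rw [← hn, ← Finset.card_univ]; exact Finset.card_le_card (Finset.subset_univ _)
  unfold Q at hq
  have h4 : s * C.card ≤ s * n := Nat.mul_le_mul_left s h1
  have h5 : h * ((upc P c).card + (dnc P x).card) ≤ h * (n + n) :=
    Nat.mul_le_mul_left h (by omega)
  have h6 : 1 * (2 * h * n + 1) ≤ s * (2 * h * n + 1) := Nat.mul_le_mul_right _ hspos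
  nlinarith

end Pool.Agent.helper675_ocg
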