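import Pool.Agent.helper675_ocg.Core

/-!
The potential inequality for a vertex and a set of vertices incomparable to it.
-/

namespace Pool.Agent.helper675_ocg

open Finset

variable {V : Type*} [Fintype V] [DecidableEq V]

/-- A nonempty set has an element with no arc of `P` into it from the set. -/
lemma exists_min {P : Finset (V × V)} (hirr : ∀ x, (x, x) ∉ P)
    (htr : ∀ x y z, (x, y) ∈ P → (y, z) ∈ P → (x, z) ∈ P) (Z : Finset V)
    (hZ : Z.Nonempty) : ∃ z ∈ Z, ∀ z' ∈ Z, (z', z) ∉ P := by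
  obtain ⟨z, hz, hmax⟩ := Finset.exists_max_image Z (fun v => (Z ∩ up P v).card) hZ
  refine ⟨z, hz, fun z' hz' hlt => ?_⟩
  have hss : Z ∩ up P z ⊂ Z ∩ up P z' := by
    rw [Finset.ssubset_iff_of_subset]
    · exact ⟨z, by simp [hz, hlt], by simp [hz, hirr z]⟩
    · intro w hw
      simp only [Finset.mem_inter, mem_up] at hw ⊢
      exact ⟨hw.1, htr _ _ _ hlt hw.2⟩
  exact absurd (Finset.card_lt_card hss) (not_lt.mpr (hmax z' hz'))

/-- Splitting a sum over `Z` into a point and three pieces. -/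
lemma sum_split {M : Type*} [AddCommMonoid M] {Z I J Z' : Finset V} {z : V} (hz : z ∉ I ∪ J ∪ Z')
    (hIJ : Disjoint I J) (hIZ : Disjoint (I ∪ J) Z') (hun : insert z (I ∪ J ∪ Z') = Z)
    (f : V → M) :
    ∑ v ∈ Z, f v = f z + (∑ v ∈ I, f v + ∑ v ∈ J, f v + ∑ v ∈ Z', f v) := by
  rw [← hun, Finset.sum_insert hz, Finset.sum_union hIZ, Finset.sum_union hIJ]

lemma phi_arith (X i j q a1 a2 a3 a4 n1 n2 n3 n4 u e' eZ' eJ r jn ez esJ esZ esI : ℤ)
    (F1 : a1 + jn ≤ n1) (F2 : a2 + i ≤ n2) (F3 : q * (q - 1) + 2 * u ≤ 2 * q * X + 2 * e')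
    (F4 : a4 + q * (1 + j) + e' ≤ u + n4 + r + eZ')
    (F7 : j * (j - 1) + 2 * a3 ≤ 2 * j * X + 2 * eJ)
    (F8 : n1 + (n2 + n3 + n4) ≤ X) (hn3 : 0 ≤ n3)
    (F9a : j ≤ ez + jn) (F9b : eJ ≤ esJ) (F9c : r + eZ' ≤ esZ) (hesI : 0 ≤ esI)
    (hi : 0 ≤ i) (hX : i + j + q ≤ X) :
    (1 + (i + j + q)) * (1 + (i + j + q) - 1) + 2 * (a1 + (a2 + a3 + a4)) ≤
      2 * (1 + (i + j + q)) * X + 2 * (ez + (esI + esJ + esZ)) := by
  nlinarith [mul_nonneg hi (sub_nonneg.mpr hX), mul_nonneg hi hi]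

theorem lemPhi {X : ℕ} {S : Set (Finset (V × V))} (hS : Safe X S) :
    ∀ m : ℕ, ∀ P ∈ S, ∀ (c : V) (Z : Finset V), Z.card = m → m ≤ X + 1 →
      (∀ z ∈ Z, z ≠ c ∧ (z, c) ∉ P ∧ (c, z) ∉ P) →
      (m : ℤ) * (m - 1) + 2 * ∑ z ∈ Z, ((upc P c \ up P z).card : ℤ) ≤
        2 * m * X + 2 * ∑ v ∈ Z, ((Z ∩ up P v).card : ℤ) := by
  intro m
  induction m using Nat.strong_induction_on with
  | _ m ih =>
  intro P hP c Z hZm hmX hZ
  rcases Z.eq_empty_or_nonempty with rfl | hne
  · simp at hZm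
    subst hZm
    simp
  obtain ⟨z, hz, hzmin⟩ := exists_min (hS.irrefl P hP) (hS.trans P hP) Z hne
  obtain ⟨hzc, hzc1, hzc2⟩ := hZ z hz
  obtain ⟨P', hP', hsub, hmem, hcard⟩ := hS.step P hP z c hzc hzc1 hzc2
  have irr := hS.irrefl P hP
  have irr' := hS.irrefl P' hP'
  have tr := hS.trans P hP
  have tr' := hS.trans P' hP'
  set I := (Z.erase z).filter fun v => (v, z) ∈ P' with hI
  set J := (Z.erase z).filter fun v => (z, v) ∈ P' with hJ
  set Z' := (Z.erase z).filter fun v => (v, z) ∉ P' ∧ (z, v) ∉ P' with hZ'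
  have memI : ∀ v, v ∈ I ↔ (v ≠ z ∧ v ∈ Z) ∧ (v, z) ∈ P' := by
    intro v; rw [hI, Finset.mem_filter, Finset.mem_erase]
  have memJ : ∀ v, v ∈ J ↔ (v ≠ z ∧ v ∈ Z) ∧ (z, v) ∈ P' := by
    intro v; rw [hJ, Finset.mem_filter, Finset.mem_erase]
  have memZ' : ∀ v, v ∈ Z' ↔ (v ≠ z ∧ v ∈ Z) ∧ ((v, z) ∉ P' ∧ (z, v) ∉ P') := by
    intro v; rw [hZ', Finset.mem_filter, Finset.mem_erase]
  have hzn : z ∉ I ∪ J ∪ Z' := by
    simp only [Finset.mem_union, memI, memJ, memZ']
    tauto
  have hIJ : Disjoint I J := by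
    rw [Finset.disjoint_left]
    intro v h1 h2
    rw [memI] at h1
    rw [memJ] at h2
    exact hS.asymm hP' h1.2 h2.2
  have hIJZ : Disjoint (I ∪ J) Z' := by
    rw [Finset.disjoint_left]
    intro v h1 h2
    rw [Finset.mem_union, memI, memJ] at h1
    rw [memZ'] at h2
    rcases h1 with h1 | h1
    · exact h2.2.1 h1.2
    · exact h2.2.2 h1.2
  have hun : insert z (I ∪ J ∪ Z') = Z := by
    ext v
    simp only [Finset.mem_insert, Finset.mem_union, memI, memJ, memZ']
    constructor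
    · rintro (rfl | (h | h) | h)
      · exact hz
      · exact h.1.2
      · exact h.1.2
      · exact h.1.2
    · intro hv
      by_cases h : v = z
      · exact Or.inl h
      · by_cases h1 : (v, z) ∈ P'
        · exact Or.inr (Or.inl (Or.inl ⟨⟨h, hv⟩, h1⟩))
        · by_cases h2 : (z, v) ∈ P'
          · exact Or.inr (Or.inl (Or.inr ⟨⟨h, hv⟩, h2⟩))
          · exact Or.inr (Or.inr ⟨⟨h, hv⟩, h1, h2⟩)
  have hcardZ : m = 1 + (I.card + J.card + Z'.card) := by
    rw [← hZm, ← hun, Finset.card_insert_of_notMem hzn, Finset.card_union_of_disjoint hIJZ,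
      Finset.card_union_of_disjoint hIJ]
    omega
  have hzcP' : ∀ w, w ∈ upc P c → (z, w) ∈ P' := by
    intro w hw
    rw [mem_upc] at hw
    rcases hw with rfl | hw
    · exact hmem
    · exact tr' _ _ _ hmem (hsub hw)
  have hJc : ∀ w ∈ J, w ∉ upc P c := by
    intro w hw
    rw [memJ] at hw
    rw [mem_upc]
    have := hZ w hw.1.2
    tauto
  have hZc : ∀ w ∈ Z', w ∉ upc P c := by
    intro w hw
    rw [memZ'] at hw
    rw [mem_upc]
    have := hZ w hw.1.2
    tauto
  have hzupc : z ∉ upc P c := by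
    rw [mem_upc]
    tauto
  -- F1
  have F1 : (upc P c \ up P z).card + (J \ up P z).card ≤ (up P' z \ up P z).card := by
    rw [← Finset.card_union_of_disjoint]
    · refine Finset.card_le_card fun w hw => ?_
      simp only [Finset.mem_union, Finset.mem_sdiff, mem_up] at hw ⊢
      rcases hw with hw | hw
      · exact ⟨hzcP' w hw.1, hw.2⟩
      · exact ⟨((memJ w).1 hw.1).2, hw.2⟩
    · rw [Finset.disjoint_left]
      intro w h1 h2
      exact hJc w (Finset.mem_sdiff.1 h2).1 (Finset.mem_sdiff.1 h1).1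
  -- F2
  have F2 : ∀ v ∈ I, (upc P c \ up P v).card + 1 ≤ (up P' v \ up P v).card := by
    intro v hv
    rw [memI] at hv
    have hzv : z ∉ upc P c \ up P v := by
      rw [Finset.mem_sdiff]; tauto
    rw [← Finset.card_insert_of_notMem hzv]
    refine Finset.card_le_card fun w hw => ?_
    simp only [Finset.mem_insert, Finset.mem_sdiff, mem_up] at hw ⊢
    rcases hw with rfl | hw
    · exact ⟨hv.2, hzmin v hv.1.2⟩
    · exact ⟨tr' _ _ _ hv.2 (hzcP' w hw.1), hw.2⟩
  -- F4
  have F4 : ∀ v ∈ Z', (upc P c \ up P v).card + (1 + J.card) + (Z' ∩ up P' v).card ≤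
      (upc P' z \ up P' v).card + (up P' v \ up P v).card + (J ∩ up P v).card +
        (Z' ∩ up P v).card := by
    intro v hv
    have hv' := hv
    rw [memZ'] at hv'
    have hd1 : Disjoint (upc P c \ up P v) (insert z J) := by
      rw [Finset.disjoint_left]
      intro w h1 h2
      rw [Finset.mem_sdiff] at h1
      rw [Finset.mem_insert] at h2
      rcases h2 with rfl | h2
      · exact hzupc h1.1
      · exact hJc w h2 h1.1
    have hd2 : Disjoint ((upc P c \ up P v) ∪ insert z J) (Z' ∩ up P' v) := by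
      rw [Finset.disjoint_left]
      intro w h1 h2
      rw [Finset.mem_union, Finset.mem_sdiff, Finset.mem_insert] at h1
      rw [Finset.mem_inter] at h2
      rcases h1 with h1 | rfl | h1
      · exact hZc w h2.1 h1.1
      · exact ((memZ' _).1 h2.1).1.1 rfl
      · exact ((memZ' _).1 h2.1).2.2 ((memJ _).1 h1).2
    have hzJ : z ∉ J := by
      rw [memJ]; tauto
    have hc1 : (((upc P c \ up P v) ∪ insert z J) ∪ (Z' ∩ up P' v)).card =
        (upc P c \ up P v).card + (1 + J.card) + (Z' ∩ up P' v).card := by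
      rw [Finset.card_union_of_disjoint hd2, Finset.card_union_of_disjoint hd1,
        Finset.card_insert_of_notMem hzJ]
      omega
    rw [← hc1]
    have hss : ((upc P c \ up P v) ∪ insert z J) ∪ (Z' ∩ up P' v) ⊆
        (((upc P' z \ up P' v) ∪ (up P' v \ up P v)) ∪ (J ∩ up P v)) ∪ (Z' ∩ up P v) := by
      intro w hw
      simp only [Finset.mem_union, Finset.mem_sdiff, Finset.mem_insert, Finset.mem_inter,
        mem_up] at hw ⊢
      rcases hw with (hw | rfl | hw) | hw
      · have h1 : w ∈ upc P' z := by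
          rw [mem_upc]; exact Or.inr (hzcP' w hw.1)
        by_cases h : (v, w) ∈ P'
        · exact Or.inl (Or.inl (Or.inr ⟨h, hw.2⟩))
        · exact Or.inl (Or.inl (Or.inl ⟨h1, h⟩))
      · have h1 : w ∈ upc P' w := by
          rw [mem_upc]; exact Or.inl rfl
        exact Or.inl (Or.inl (Or.inl ⟨h1, hv'.2.1⟩))
      · have h1 : w ∈ upc P' z := by
          rw [mem_upc]; exact Or.inr ((memJ w).1 hw).2
        by_cases h : (v, w) ∈ P'
        · by_cases h' : (v, w) ∈ P
          · exact Or.inl (Or.inr ⟨hw, h'⟩)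
          · exact Or.inl (Or.inl (Or.inr ⟨h, h'⟩))
        · exact Or.inl (Or.inl (Or.inl ⟨h1, h⟩))
      · by_cases h' : (v, w) ∈ P
        · exact Or.inr ⟨hw.1, h'⟩
        · exact Or.inl (Or.inl (Or.inr ⟨hw.2, h'⟩))
    calc _ ≤ _ := Finset.card_le_card hss
      _ ≤ _ := (Finset.card_union_le _ _).trans (Nat.add_le_add_right
        ((Finset.card_union_le _ _).trans (Nat.add_le_add_right
          (Finset.card_union_le _ _) _)) _)
  have hJm : J.card < m := by omega
  have hZm' : Z'.card < m := by omega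
  -- F3
  have F3 := ih Z'.card hZm' P' hP' z Z' rfl (by omega) (by
    intro v hv
    rw [memZ'] at hv
    exact ⟨hv.1.1, hv.2⟩)
  -- F7
  have F7 := ih J.card hJm P hP c J rfl (by omega) (by
    intro v hv
    rw [memJ] at hv
    exact hZ v hv.1.2)
  -- F8
  have F8 := sum_new_le hsub hcard Z
  rw [sum_split hzn hIJ hIJZ hun] at F8
  -- F9
  have F9a : J.card - (J \ up P z).card ≤ (Z ∩ up P z).card := by
    have h1 : (J \ up P z).card + (J ∩ up P z).card = J.card := Finset.card_sdiff_add_card_inter _ _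
    have h2 : (J ∩ up P z).card ≤ (Z ∩ up P z).card :=
      Finset.card_le_card (Finset.inter_subset_inter_right (fun w hw => ((memJ w).1 hw).1.2))
    omega
  have F9b : ∀ v ∈ J, (J ∩ up P v).card ≤ (Z ∩ up P v).card := fun v _ =>
    Finset.card_le_card (Finset.inter_subset_inter_right (fun w hw => ((memJ w).1 hw).1.2))
  have F9c : ∀ v ∈ Z', (J ∩ up P v).card + (Z' ∩ up P v).card ≤ (Z ∩ up P v).card := by
    intro v _
    rw [← Finset.card_union_of_disjoint]
    · refine Finset.card_le_card fun w hw => ?_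
      simp only [Finset.mem_union, Finset.mem_inter] at hw ⊢
      rcases hw with hw | hw
      · exact ⟨((memJ w).1 hw.1).1.2, hw.2⟩
      · exact ⟨((memZ' w).1 hw.1).1.2, hw.2⟩
    · rw [Finset.disjoint_left]
      intro w h1 h2
      have h1' := (Finset.mem_inter.1 h1).1
      have h2' := (Finset.mem_inter.1 h2).1
      exact ((memZ' w).1 h2').2.2 ((memJ w).1 h1').2
  -- sums
  have S2 : ∑ v ∈ I, (upc P c \ up P v).card + I.card ≤ ∑ v ∈ I, (up P' v \ up P v).card := by
    have := Finset.sum_le_sum F2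
    rw [Finset.sum_add_distrib, ← Finset.card_eq_sum_ones] at this
    exact this
  have S4 : ∑ v ∈ Z', (upc P c \ up P v).card + Z'.card * (1 + J.card) +
      ∑ v ∈ Z', (Z' ∩ up P' v).card ≤
      ∑ v ∈ Z', (upc P' z \ up P' v).card + ∑ v ∈ Z', (up P' v \ up P v).card +
        ∑ v ∈ Z', (J ∩ up P v).card + ∑ v ∈ Z', (Z' ∩ up P v).card := by
    have := Finset.sum_le_sum F4
    simp only [Finset.sum_add_distrib] at this
    simp only [Finset.sum_const, smul_eq_mul] at this
    linarith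
  have S9b := Finset.sum_le_sum F9b
  have S9c := Finset.sum_le_sum F9c
  rw [Finset.sum_add_distrib] at S9c
  rw [sum_split hzn hIJ hIJZ hun, sum_split hzn hIJ hIJZ hun]
  have hXi : I.card + J.card + Z'.card ≤ X := by omega
  have hjn : (J \ up P z).card ≤ J.card := Finset.card_le_card Finset.sdiff_subset
  have F9a' : J.card ≤ (Z ∩ up P z).card + (J \ up P z).card := by omega
  rw [hcardZ]
  push_cast
  have hn3 : 0 ≤ ∑ v ∈ J, (up P' v \ up P v).card := Nat.zero_le _
  have hsI : 0 ≤ ∑ v ∈ I, (Z ∩ up P v).card := Nat.zero_le _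
  zify at F1 S2 S4 F8 S9b S9c F9a' hXi hn3 hsI
  exact phi_arith _ _ _ _ _ _ _ _ _ _ _ _ _ _ _ _ _ _ _ _ _ _ F1 S2 F3 S4 F7 F8 hn3 F9a' S9b
    S9c hsI (by positivity) hXi

end Pool.Agent.helper675_ocg
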