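import Pool.Agent.helper675_ocg.Phi

/-!
The chain strategy: best triples, their near-optimality, and the basic step.
-/

namespace Pool.Agent.helper675_ocg

open Finset

variable {V : Type*} [Fintype V] [DecidableEq V]

/-- A bottom `c`, a top `x` and a chain `C` between them. -/
structure Valid (P : Finset (V × V)) (c x : V) (C : Finset V) : Prop where
  cx : c = x ∨ (c, x) ∈ P
  low : ∀ a ∈ C, a = c ∨ (c, a) ∈ P
  high : ∀ a ∈ C, a = x ∨ (a, x) ∈ P
  chain : ∀ a ∈ C, ∀ b ∈ C, a ≠ b → (a, b) ∈ P ∨ (b, a) ∈ P

/-- The value of a triple. -/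
def Q (s h : ℕ) (P : Finset (V × V)) (c x : V) (C : Finset V) : ℕ :=
  s * C.card + h * ((upc P c).card + (dnc P x).card)

/-- A triple of largest value. -/
structure Opt (s h : ℕ) (P : Finset (V × V)) (c x : V) (C : Finset V) : Prop where
  valid : Valid P c x C
  max : ∀ c' x' C', Valid P c' x' C' → Q s h P c' x' C' ≤ Q s h P c x C

lemma Valid.flip {P : Finset (V × V)} {c x : V} {C : Finset V} (hv : Valid P c x C) :
    Valid (rev P) x c C where
  cx := by
    rcases hv.cx with h | h
    · exact Or.inl h.symm
    · exact Or.inr (by simpa using h)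
  low := fun a ha => by simpa using hv.high a ha
  high := fun a ha => by simpa using hv.low a ha
  chain := fun a ha b hb hab => by simpa using (hv.chain a ha b hb hab).symm

lemma Q_rev (s h : ℕ) (P : Finset (V × V)) (c x : V) (C : Finset V) :
    Q s h (rev P) x c C = Q s h P c x C := by
  unfold Q
  rw [upc_rev, dnc_rev, Nat.add_comm (dnc P x).card]

lemma Opt.flip {s h : ℕ} {P : Finset (V × V)} {c x : V} {C : Finset V} (ho : Opt s h P c x C) :
    Opt s h (rev P) x c C where
  valid := ho.valid.flip
  max := by
    intro c' x' C' hv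
    have h1 := hv.flip
    rw [rev_rev] at h1
    rw [Q_rev, Q_rev]
    exact ho.max x' c' C' h1

lemma mem_opp_rev {S : Set (Finset (V × V))} {P : Finset (V × V)} (hP : P ∈ S) :
    rev P ∈ opp S := by
  show rev (rev P) ∈ S
  rwa [rev_rev]

lemma exists_opt (s h : ℕ) (P : Finset (V × V)) {c x : V} {C : Finset V} (hv : Valid P c x C) :
    ∃ c' x' C', Opt s h P c' x' C' := by
  classical
  obtain ⟨⟨c', x', C'⟩, hmem, hmax⟩ := Finset.exists_max_image
    (univ.filter fun t : V × V × Finset V => Valid P t.1 t.2.1 t.2.2)
    (fun t => Q s h P t.1 t.2.1 t.2.2) ⟨(c, x, C), by simpa using hv⟩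
  refine ⟨c', x', C', ⟨by simpa using hmem, fun c'' x'' C'' hv'' => ?_⟩⟩
  exact hmax (c'', x'', C'') (by simpa using hv'')

lemma card_upc {P : Finset (V × V)} (hirr : ∀ x, (x, x) ∉ P) (v : V) :
    (upc P v).card = (up P v).card + 1 := by
  unfold upc
  rw [Finset.card_insert_of_notMem]
  simpa using hirr v

lemma card_dnc {P : Finset (V × V)} (hirr : ∀ x, (x, x) ∉ P) (v : V) :
    (dnc P v).card = (dn P v).card + 1 := by
  unfold dnc
  rw [Finset.card_insert_of_notMem]
  simpa using hirr v

lemma upc_lt {X : ℕ} {S : Set (Finset (V × V))} (hS : Safe X S) {P : Finset (V × V)}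
    (hP : P ∈ S) {w v : V} (hwv : (w, v) ∈ P) : (upc P v).card < (upc P w).card := by
  apply Finset.card_lt_card
  rw [Finset.ssubset_iff_of_subset]
  · refine ⟨w, by simp, ?_⟩
    rw [mem_upc]
    rintro (h | h)
    · subst h; exact hS.irrefl P hP w hwv
    · exact hS.asymm hP hwv h
  · intro u hu
    rw [mem_upc] at hu ⊢
    rcases hu with rfl | hu
    · exact Or.inr hwv
    · exact Or.inr (hS.trans P hP _ _ _ hwv hu)

lemma Opt.min {X : ℕ} {S : Set (Finset (V × V))} (hS : Safe X S) {P : Finset (V × V)}
    (hP : P ∈ S) {s h : ℕ} (hh : 1 ≤ h) {c x : V} {C : Finset V} (ho : Opt s h P c x C)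
    (v : V) : (v, c) ∉ P := by
  intro hv
  have htr := hS.trans P hP
  have hval : Valid P v x C :=
    { cx := by
        rcases ho.valid.cx with h | h
        · subst h; exact Or.inr hv
        · exact Or.inr (htr _ _ _ hv h)
      low := by
        intro a ha
        rcases ho.valid.low a ha with h | h
        · subst h; exact Or.inr hv
        · exact Or.inr (htr _ _ _ hv h)
      high := ho.valid.high
      chain := ho.valid.chain }
  have h1 := ho.max v x C hval
  have h2 := upc_lt hS hP hv
  unfold Q at h1
  nlinarith

lemma Opt.near {X : ℕ} {S : Set (Finset (V × V))} (hS : Safe X S) {P : Finset (V × V)}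
    (hP : P ∈ S) {s h : ℕ} (hh : 1 ≤ h) (hh2 : 2 * X < (h + 1) * (h + 2)) (hs : h * X < s * s)
    {c x : V} {C : Finset V} (ho : Opt s h P c x C) (v : V) :
    (upc P v).card ≤ (upc P c).card + s := by
  have hirr := hS.irrefl P hP
  have htr := hS.trans P hP
  obtain ⟨u, -, hu⟩ := Finset.exists_max_image (univ : Finset V) (fun v => (upc P v).card)
    ⟨v, Finset.mem_univ v⟩
  refine (hu v (Finset.mem_univ v)).trans ?_
  by_contra hlt
  rw [not_le] at hlt
  have hmin : ∀ w, (w, u) ∉ P := fun w hw =>
    absurd (upc_lt hS hP hw) (not_lt.mpr (hu w (Finset.mem_univ w)))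
  have hmax : ∀ w, (x, w) ∉ P := by
    intro w hw
    have := (ho.flip).min hS.opp (mem_opp_rev hP) hh w
    exact this (by simpa using hw)
  -- the part of the chain not above `u` is short
  have hg : (C \ upc P u).card ≤ h := by
    by_contra hgt
    rw [not_le] at hgt
    have hne : (C \ upc P u).Nonempty := Finset.card_pos.mp (by omega)
    obtain ⟨a, ha, hatop⟩ := exists_min (hS.opp.irrefl _ (mem_opp_rev hP))
      (hS.opp.trans _ (mem_opp_rev hP)) (C \ upc P u) hne
    simp only [mem_rev] at hatop
    have haC := (Finset.mem_sdiff.1 ha).1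
    have hau := (Finset.mem_sdiff.1 ha).2
    rw [mem_upc, not_or] at hau
    have hcost := hS.cost hP (x := a) (y := u) hau.1 (hmin a) hau.2
    have hsub : C \ upc P u ⊆ dnc P a := by
      intro b hb
      rw [mem_dnc]
      by_cases hba : b = a
      · exact Or.inl hba
      · rcases ho.valid.chain b (Finset.mem_sdiff.1 hb).1 a haC hba with h | h
        · exact Or.inr h
        · exact absurd h (hatop b hb)
    have hterm : ∀ b ∈ C \ upc P u,
        1 + ((C \ upc P u) ∩ up P b).card ≤ (upc P u \ up P b).card := by
      intro b _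
      have e1 : (upc P u \ up P b).card + (upc P u ∩ up P b).card = (upc P u).card :=
        Finset.card_sdiff_add_card_inter _ _
      have e2 : (up P b \ upc P u).card + (up P b ∩ upc P u).card = (up P b).card :=
        Finset.card_sdiff_add_card_inter _ _
      rw [Finset.inter_comm (up P b)] at e2
      have e3 : ((C \ upc P u) ∩ up P b).card ≤ (up P b \ upc P u).card := by
        refine Finset.card_le_card fun w hw => ?_
        rw [Finset.mem_inter, Finset.mem_sdiff] at hw
        rw [Finset.mem_sdiff]
        exact ⟨hw.2, hw.1.2⟩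
      have e4 := hu b (Finset.mem_univ b)
      have e5 := card_upc hirr b
      omega
    have hsum : (C \ upc P u).card + ∑ b ∈ C \ upc P u, ((C \ upc P u) ∩ up P b).card ≤ X := by
      have h1 := Finset.sum_le_sum hterm
      rw [Finset.sum_add_distrib, ← Finset.card_eq_sum_ones] at h1
      exact h1.trans ((Finset.sum_le_sum_of_subset hsub).trans hcost)
    have hch := chain_sum hirr htr (C \ upc P u) (fun a ha b hb hab =>
      ho.valid.chain a (Finset.mem_sdiff.1 ha).1 b (Finset.mem_sdiff.1 hb).1 hab)
    zify at hsum hgt hh2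
    nlinarith
  have hcardC : (C \ upc P u).card + (C ∩ upc P u).card = C.card :=
    Finset.card_sdiff_add_card_inter _ _
  by_cases hux : u = x ∨ (u, x) ∈ P
  · have hval : Valid P u x (C ∩ upc P u) :=
      { cx := hux
        low := by
          intro a ha
          have := (Finset.mem_inter.1 ha).2
          rwa [mem_upc] at this
        high := fun a ha => ho.valid.high a (Finset.mem_inter.1 ha).1
        chain := fun a ha b hb hab =>
          ho.valid.chain a (Finset.mem_inter.1 ha).1 b (Finset.mem_inter.1 hb).1 hab }
    have h1 := ho.max u x _ hval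
    unfold Q at h1
    rw [← hcardC] at h1
    nlinarith
  · rw [not_or] at hux
    have hemp : C ∩ upc P u = ∅ := by
      rw [Finset.eq_empty_iff_forall_notMem]
      intro a ha
      rw [Finset.mem_inter, mem_upc] at ha
      rcases ha.2 with rfl | h1
      · rcases ho.valid.high a ha.1 with h2 | h2
        · exact hux.1 h2
        · exact hux.2 h2
      · rcases ho.valid.high a ha.1 with h2 | h2
        · subst h2; exact hux.2 h1
        · exact hux.2 (htr _ _ _ h1 h2)
    rw [hemp, Finset.card_empty] at hcardC
    have hcost := hS.cost' hP (x := x) (y := u) (Ne.symm hux.1) (hmax u) hux.2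
    have hterm : ∀ b ∈ upc P u, s + h ≤ h * (dnc P x \ dn P b).card := by
      intro b hb
      have hval : Valid P u b {b} :=
        { cx := by
            rw [mem_upc] at hb
            rcases hb with h | h
            · exact Or.inl h.symm
            · exact Or.inr h
          low := by
            intro a ha
            rw [Finset.mem_singleton] at ha
            subst ha
            rwa [mem_upc] at hb
          high := by
            intro a ha
            rw [Finset.mem_singleton] at ha
            exact Or.inl ha
          chain := by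
            intro a ha a' ha' hne
            rw [Finset.mem_singleton] at ha ha'
            exact absurd (ha.trans ha'.symm) hne }
      have h1 := ho.max u b _ hval
      unfold Q at h1
      rw [Finset.card_singleton] at h1
      have h2 : (dnc P x \ dn P b).card + (dnc P x ∩ dn P b).card = (dnc P x).card :=
        Finset.card_sdiff_add_card_inter _ _
      have h3 : (dnc P x ∩ dn P b).card ≤ (dn P b).card :=
        Finset.card_le_card Finset.inter_subset_right
      have h4 := card_dnc hirr b
      have h5 : C.card ≤ h := by omega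
      have h6 : (upc P c).card + s + 1 ≤ (upc P u).card := hlt
      have h7 : (dnc P x).card + 1 ≤ (dnc P x \ dn P b).card + (dnc P b).card := by omega
      nlinarith
    have hsum : (upc P u).card * (s + h) ≤ h * X := by
      have h1 := Finset.sum_le_sum hterm
      rw [Finset.sum_const, smul_eq_mul, ← Finset.mul_sum] at h1
      exact h1.trans (Nat.mul_le_mul_left h hcost)
    nlinarith

lemma Opt.max' {X : ℕ} {S : Set (Finset (V × V))} (hS : Safe X S) {P : Finset (V × V)}
    (hP : P ∈ S) {s h : ℕ} (hh : 1 ≤ h) {c x : V} {C : Finset V} (ho : Opt s h P c x C)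
    (v : V) : (x, v) ∉ P := by
  intro hw
  have := (ho.flip).min hS.opp (mem_opp_rev hP) hh v
  exact this (by simpa using hw)

lemma Opt.near' {X : ℕ} {S : Set (Finset (V × V))} (hS : Safe X S) {P : Finset (V × V)}
    (hP : P ∈ S) {s h : ℕ} (hh : 1 ≤ h) (hh2 : 2 * X < (h + 1) * (h + 2)) (hs : h * X < s * s)
    {c x : V} {C : Finset V} (ho : Opt s h P c x C) (v : V) :
    (dnc P v).card ≤ (dnc P x).card + s := by
  have := (ho.flip).near hS.opp (mem_opp_rev hP) hh hh2 hs v
  rwa [upc_rev, upc_rev] at this

/-- Some vertex outside `upc c ∪ dnc x` has a small up-set, provided there are enough of them. -/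
lemma Opt.exists_low {X : ℕ} {S : Set (Finset (V × V))} (hS : Safe X S) {P : Finset (V × V)}
    (hP : P ∈ S) {s h : ℕ} (hh : 1 ≤ h) (hh2 : 2 * X < (h + 1) * (h + 2)) (hs : h * X < s * s)
    {c x : V} {C : Finset V} (ho : Opt s h P c x C) {n : ℕ} (hn : Fintype.card V = n)
    {θ w0 : ℕ} (hw : w0 ≤ (univ \ (upc P c ∪ dnc P x)).card)
    (hθ : n * X + n * s * θ < w0 * θ * θ) :
    ∃ z, z ∉ upc P c ∧ z ∉ dnc P x ∧ (up P z).card < θ := by
  have hirr := hS.irrefl P hP
  have htr := hS.trans P hP
  set W := univ \ (upc P c ∪ dnc P x) with hW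
  have memW : ∀ z, z ∈ W ↔ z ∉ upc P c ∧ z ∉ dnc P x := by
    intro z
    rw [hW, Finset.mem_sdiff, Finset.mem_union]
    simp
  by_contra hcon
  simp only [not_exists, not_and, not_lt] at hcon
  have hlow : ∀ z ∈ W, θ ≤ (up P z).card := fun z hz => hcon z ((memW z).1 hz).1 ((memW z).1 hz).2
  -- each `z ∈ W`
  have hz1 : ∀ z ∈ W, ∑ b ∈ up P z, (W ∩ dn P b).card ≤ X + s * (up P z).card := by
    intro z hz
    have hz2 := ((memW z).1 hz).2
    rw [mem_dnc, not_or] at hz2
    have hcost := hS.cost' hP (x := x) (y := z) (Ne.symm hz2.1) (ho.max' hS hP hh z) hz2.2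
    have hsub : up P z ⊆ upc P z := Finset.subset_insert _ _
    have h1 := (Finset.sum_le_sum_of_subset hsub).trans hcost
    have h2 : ∀ b ∈ up P z, (W ∩ dn P b).card ≤ (dnc P x \ dn P b).card + s := by
      intro b _
      have e1 := ho.near' hS hP hh hh2 hs b
      have e2 := card_dnc hirr b
      have e3 : (dnc P x \ dn P b).card + (dnc P x ∩ dn P b).card = (dnc P x).card :=
        Finset.card_sdiff_add_card_inter _ _
      have e4 : (W ∩ dn P b).card + (dnc P x ∩ dn P b).card ≤ (dn P b).card := by
        rw [← Finset.card_union_of_disjoint]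
        · refine Finset.card_le_card fun w hw => ?_
          rw [Finset.mem_union, Finset.mem_inter, Finset.mem_inter] at hw
          rcases hw with hw | hw
          · exact hw.2
          · exact hw.2
        · rw [Finset.disjoint_left]
          intro w h1 h2
          exact ((memW w).1 (Finset.mem_inter.1 h1).1).2 (Finset.mem_inter.1 h2).1
      omega
    have h3 := Finset.sum_le_sum h2
    rw [Finset.sum_add_distrib, Finset.sum_const, smul_eq_mul] at h3
    rw [Nat.mul_comm s]
    omega
  have hdc1 : ∑ z ∈ W, ∑ b ∈ up P z, (W ∩ dn P b).card = ∑ b, (W ∩ dn P b).card ^ 2 := by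
    have : ∀ b, (W ∩ dn P b).card ^ 2 = ∑ z ∈ W ∩ dn P b, (W ∩ dn P b).card := by
      intro b
      rw [Finset.sum_const, smul_eq_mul, sq]
    simp only [this]
    refine Finset.sum_comm' ?_
    intro a b
    simp only [Finset.mem_inter, mem_dn, mem_up, Finset.mem_univ]
    tauto
  have hdc2 : ∑ z ∈ W, (up P z).card = ∑ b, (W ∩ dn P b).card := by
    simp only [Finset.card_eq_sum_ones]
    refine Finset.sum_comm' ?_
    intro a b
    simp only [Finset.mem_inter, mem_dn, mem_up, Finset.mem_univ]
    tauto
  have hcs : (∑ b, (W ∩ dn P b).card) ^ 2 ≤ n * ∑ b, (W ∩ dn P b).card ^ 2 := by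
    have := sq_sum_le_card_mul_sum_sq (s := (univ : Finset V)) (f := fun b => (W ∩ dn P b).card)
    rwa [Finset.card_univ, hn] at this
  have hsum := Finset.sum_le_sum hz1
  rw [hdc1, Finset.sum_add_distrib, Finset.sum_const, smul_eq_mul, ← Finset.mul_sum] at hsum
  have hT : W.card * θ ≤ ∑ z ∈ W, (up P z).card := by
    have := Finset.sum_le_sum hlow
    rwa [Finset.sum_const, smul_eq_mul] at this
  rw [← hdc2] at hcs
  generalize (∑ z ∈ W, (up P z).card) = T at *
  generalize (∑ b, (W ∩ dn P b).card ^ 2) = R at *
  generalize W.card = w at *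
  have h1 : T ^ 2 ≤ n * (w * X + s * T) := hcs.trans (Nat.mul_le_mul_left n hsum)
  have h2 : n * X + n * s * θ < w * θ * θ :=
    hθ.trans_le (Nat.mul_le_mul_right θ (Nat.mul_le_mul_right θ hw))
  have hTpos : 0 < T := by
    rcases Nat.eq_zero_or_pos T with h0 | h0
    · subst h0
      have : w * θ = 0 := by omega
      rw [this] at h2
      omega
    · exact h0
  -- `T * w * θ ≤ T ^ 2 ≤ n (w X + s T)`
  have h3 : T * (w * θ) ≤ n * (w * X + s * T) := by
    refine le_trans ?_ h1
    rw [sq]
    exact Nat.mul_le_mul_left T hT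
  have h4 : T * (n * X + n * s * θ) < T * (w * θ * θ) := Nat.mul_lt_mul_of_pos_left h2 hTpos
  have h5 : T * (w * θ * θ) ≤ n * (w * X + s * T) * θ := by
    calc T * (w * θ * θ) = T * (w * θ) * θ := by ring
      _ ≤ _ := Nat.mul_le_mul_right θ h3
  have h6 : T * (n * X) < (n * X) * (w * θ) := by nlinarith
  have h7 : (n * X) * (w * θ) ≤ (n * X) * T := Nat.mul_le_mul_left _ hT
  nlinarith

lemma step_up {X : ℕ} {S : Set (Finset (V × V))} (hS : Safe X S) {P : Finset (V × V)}
    (hP : P ∈ S) {s h : ℕ} (hh : 1 ≤ h) (hh2 : 2 * X < (h + 1) * (h + 2)) (hs : h * X < s * s)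
    {c x : V} {C : Finset V} (ho : Opt s h P c x C) {θ : ℕ}
    (hcx : (dnc P x).card ≤ (upc P c).card) {z : V} (hz : z ∉ upc P c)
    (hlow : (up P z).card < θ) :
    ∃ P' ∈ S, P'.card ≤ P.card + X ∧
      (∃ c' x' C', Valid P' c' x' C' ∧ Q s h P c x C + s ≤ Q s h P' c' x' C') ∧
      (∀ v, (upc P' v).card ≤ X + s + θ + 1) ∧ (∀ v, (dnc P' v).card ≤ X + s + θ + 1) := by
  have hirr := hS.irrefl P hP
  have htr := hS.trans P hP
  have hz' := hz
  rw [mem_upc, not_or] at hz'
  obtain ⟨P', hP', hsub, hmem, hcard⟩ := hS.step P hP z c hz'.1 (ho.min hS hP hh z) hz'.2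
  have hirr' := hS.irrefl P' hP'
  have htr' := hS.trans P' hP'
  have hnear := ho.near hS hP hh hh2 hs
  have hnear' := ho.near' hS hP hh hh2 hs
  have hzall : ∀ w ∈ upc P c, (z, w) ∈ P' := by
    intro w hw
    rw [mem_upc] at hw
    rcases hw with rfl | hw
    · exact hmem
    · exact htr' _ _ _ hmem (hsub hw)
  have hbase : (upc P c).card ≤ (upc P c \ up P z).card + (up P z).card := by
    have e1 : (upc P c \ up P z).card + (upc P c ∩ up P z).card = (upc P c).card :=
      Finset.card_sdiff_add_card_inter _ _
    have e2 : (upc P c ∩ up P z).card ≤ (up P z).card :=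
      Finset.card_le_card Finset.inter_subset_right
    omega
  have hznew : (upc P c \ up P z).card ≤ (up P' z \ up P z).card := by
    refine Finset.card_le_card fun w hw => ?_
    rw [Finset.mem_sdiff] at hw ⊢
    exact ⟨by rw [mem_up]; exact hzall w hw.1, hw.2⟩
  have hsplit : ∀ v, (up P' v).card ≤ (up P v).card + (up P' v \ up P v).card := by
    intro v
    have e1 : (up P' v \ up P v).card + (up P' v ∩ up P v).card = (up P' v).card :=
      Finset.card_sdiff_add_card_inter _ _
    have e2 : (up P' v ∩ up P v).card ≤ (up P v).card :=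
      Finset.card_le_card Finset.inter_subset_right
    omega
  have hsplit' : ∀ v, (dn P' v).card ≤ (dn P v).card + (dn P' v \ dn P v).card := by
    intro v
    have e1 : (dn P' v \ dn P v).card + (dn P' v ∩ dn P v).card = (dn P' v).card :=
      Finset.card_sdiff_add_card_inter _ _
    have e2 : (dn P' v ∩ dn P v).card ≤ (dn P v).card :=
      Finset.card_le_card Finset.inter_subset_right
    omega
  refine ⟨P', hP', hcard, ⟨z, x, insert z C, ?_, ?_⟩, ?_, ?_⟩
  · have hzlt : ∀ a ∈ C, (z, a) ∈ P' := by
      intro a ha
      apply hzall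
      rw [mem_upc]
      exact ho.valid.low a ha
    have hzx : (z, x) ∈ P' := by
      apply hzall
      rw [mem_upc]
      rcases ho.valid.cx with h | h
      · exact Or.inl h.symm
      · exact Or.inr h
    exact
      { cx := Or.inr hzx
        low := by
          intro a ha
          rcases Finset.mem_insert.1 ha with h | h
          · exact Or.inl h
          · exact Or.inr (hzlt a h)
        high := by
          intro a ha
          rcases Finset.mem_insert.1 ha with h | h
          · subst h; exact Or.inr hzx
          · rcases ho.valid.high a h with h' | h'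
            · exact Or.inl h'
            · exact Or.inr (hsub h')
        chain := by
          intro a ha b hb hab
          rcases Finset.mem_insert.1 ha with h | h
          · rcases Finset.mem_insert.1 hb with h' | h'
            · exact absurd (h.trans h'.symm) hab
            · subst h; exact Or.inl (hzlt b h')
          · rcases Finset.mem_insert.1 hb with h' | h'
            · subst h'; exact Or.inr (hzlt a h)
            · rcases ho.valid.chain a h b h' hab with h'' | h''
              · exact Or.inl (hsub h'')
              · exact Or.inr (hsub h'') }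
  · have hzC : z ∉ C := by
      intro hzC
      apply hz
      rw [mem_upc]
      exact ho.valid.low z hzC
    unfold Q
    rw [Finset.card_insert_of_notMem hzC]
    have e1 : (upc P c).card ≤ (upc P' z).card := by
      refine Finset.card_le_card fun w hw => ?_
      rw [mem_upc]
      exact Or.inr (hzall w hw)
    have e2 : (dnc P x).card ≤ (dnc P' x).card := by
      refine Finset.card_le_card fun w hw => ?_
      rw [mem_dnc] at hw ⊢
      rcases hw with h | h
      · exact Or.inl h
      · exact Or.inr (hsub h)
    nlinarith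
  · intro v
    rw [card_upc hirr']
    have e0 := hsplit v
    by_cases hvz : v = z
    · subst hvz
      have e1 := sum_new_le hsub hcard {v}
      rw [Finset.sum_singleton] at e1
      omega
    · have e1 := sum_new_le hsub hcard {v, z}
      rw [Finset.sum_pair hvz] at e1
      have e2 := hnear v
      rw [card_upc hirr v] at e2
      omega
  · intro v
    rw [card_dnc hirr']
    have e0 := hsplit' v
    have e1 := sum_new_le hsub hcard (insert z ((dn P' v \ dn P v).erase z))
    rw [Finset.sum_insert (by simp)] at e1
    have e2 : ((dn P' v \ dn P v).erase z).card ≤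
        ∑ u ∈ (dn P' v \ dn P v).erase z, (up P' u \ up P u).card := by
      rw [Finset.card_eq_sum_ones]
      refine Finset.sum_le_sum fun u hu => ?_
      rw [Finset.mem_erase, Finset.mem_sdiff, mem_dn, mem_dn] at hu
      apply Finset.card_pos.mpr
      refine ⟨v, ?_⟩
      rw [Finset.mem_sdiff, mem_up, mem_up]
      exact hu.2
    have e3 : (dn P' v \ dn P v).card ≤ ((dn P' v \ dn P v).erase z).card + 1 := by
      have := Finset.pred_card_le_card_erase (s := dn P' v \ dn P v) (a := z)
      omega
    have e4 := hnear' v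
    rw [card_dnc hirr v] at e4
    omega

end Pool.Agent.helper675_ocg
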